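import Pool.Agent.Work.MP_db9399_all.Interface

/-!
# Block CLS: a block has at most `Δ + 1` independent classes of size at most two
-/

set_option autoImplicit false

namespace Pool.Agent.Work.MP_db9399_all

open Finset Classical

universe u

set_option linter.unusedSectionVars false

namespace CLSaux

variable {V : Type u} [Fintype V]

/-- admissible labelling -/
def OK (G : SimpleGraph V) (D : Finset V) {N : ℕ} (f : V → Fin N) : Prop :=
  (∀ s, (D.filter (fun z => f z = s)).card ≤ 2) ∧
    ∀ z ∈ D, ∀ z' ∈ D, z ≠ z' → f z = f z' → ¬ G.Adj z z'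

lemma relabel (G : SimpleGraph V) (D : Finset V) {N : ℕ} (hN : 0 < N) (f : V → Fin (N + 1))
    (hf : OK G D f) (c : Fin (N + 1)) (hc : ∀ z ∈ D, f z ≠ c) :
    ∃ f' : V → Fin N, OK G D f' := by
  have hex : ∀ z, ∃ y : Fin N, z ∈ D → c.succAbove y = f z := by
    intro z
    by_cases hz : z ∈ D
    · obtain ⟨y, hy⟩ := Fin.exists_succAbove_eq (hc z hz)
      exact ⟨y, fun _ => hy⟩
    · exact ⟨⟨0, hN⟩, fun h => absurd h hz⟩
  choose f' hf' using hex
  refine ⟨f', ?_, ?_⟩
  · intro s
    refine le_trans (Finset.card_le_card ?_) (hf.1 (c.succAbove s))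
    intro z hz
    rw [Finset.mem_filter] at hz ⊢
    exact ⟨hz.1, by rw [← hf' z hz.1, hz.2]⟩
  · intro z hz z' hz' hne h
    exact hf.2 z hz z' hz' hne (by rw [← hf' z hz, ← hf' z' hz', h])

/-- merging two singleton classes -/
lemma merge (G : SimpleGraph V) (D : Finset V) {N : ℕ} (hN : 0 < N) (f : V → Fin (N + 1))
    (hf : OK G D f) (u p : V) (hu : u ∈ D) (hp : p ∈ D) (hne : p ≠ u)
    (hu1 : (D.filter (fun z => f z = f u)).card = 1)
    (hp1 : (D.filter (fun z => f z = f p)).card = 1) (hadj : ¬ G.Adj u p) :
    ∃ f' : V → Fin N, OK G D f' := by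
  have hu' : ∀ z ∈ D, f z = f u → z = u := by
    intro z hz h
    obtain ⟨a, ha⟩ := Finset.card_eq_one.1 hu1
    have h1 : z ∈ D.filter (fun z => f z = f u) := Finset.mem_filter.2 ⟨hz, h⟩
    have h2 : u ∈ D.filter (fun z => f z = f u) := Finset.mem_filter.2 ⟨hu, rfl⟩
    rw [ha, Finset.mem_singleton] at h1 h2
    rw [h1, h2]
  have hp' : ∀ z ∈ D, f z = f p → z = p := by
    intro z hz h
    obtain ⟨a, ha⟩ := Finset.card_eq_one.1 hp1
    have h1 : z ∈ D.filter (fun z => f z = f p) := Finset.mem_filter.2 ⟨hz, h⟩
    have h2 : p ∈ D.filter (fun z => f z = f p) := Finset.mem_filter.2 ⟨hp, rfl⟩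
    rw [ha, Finset.mem_singleton] at h1 h2
    rw [h1, h2]
  have hfne : f p ≠ f u := fun h => hne (hu' p hp h)
  have hadj' : ¬ G.Adj p u := fun h => hadj h.symm
  apply relabel G D hN (Function.update f u (f p)) _ (f u)
  · intro z hz
    by_cases h : z = u
    · rw [h, Function.update_self]
      exact hfne
    · rw [Function.update_of_ne h]
      exact fun h' => h (hu' z hz h')
  · refine ⟨?_, ?_⟩
    · intro s
      by_cases hs : s = f p
      · have : D.filter (fun z => Function.update f u (f p) z = s) ⊆ {u, p} := by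
          intro z hz
          rw [Finset.mem_filter] at hz
          rw [Finset.mem_insert, Finset.mem_singleton]
          by_cases h : z = u
          · exact Or.inl h
          · rw [Function.update_of_ne h, hs] at hz
            exact Or.inr (hp' z hz.1 hz.2)
        exact (Finset.card_le_card this).trans Finset.card_le_two
      · refine le_trans (Finset.card_le_card ?_) (hf.1 s)
        intro z hz
        rw [Finset.mem_filter] at hz ⊢
        refine ⟨hz.1, ?_⟩
        by_cases h : z = u
        · rw [h, Function.update_self] at hz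
          exact absurd hz.2.symm hs
        · rw [Function.update_of_ne h] at hz
          exact hz.2
    · intro z hz z' hz' hzz h
      by_cases h1 : z = u
      · by_cases h2 : z' = u
        · exact absurd (h1.trans h2.symm) hzz
        · rw [h1, Function.update_self, Function.update_of_ne h2] at h
          rw [h1, hp' z' hz' h.symm]
          exact hadj
      · by_cases h2 : z' = u
        · rw [h2, Function.update_self, Function.update_of_ne h1] at h
          rw [h2, hp' z hz h]
          exact hadj'
        · rw [Function.update_of_ne h1, Function.update_of_ne h2] at h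
          exact hf.2 z hz z' hz' hzz h

lemma card_nonadj (G : SimpleGraph V) (D : Finset V) (Δ : ℕ) (u : V) (hu : u ∈ D)
    (hdeg : (nb G u).card ≤ Δ) :
    D.card ≤ (D.filter (fun p => p ≠ u ∧ ¬ G.Adj u p)).card + 1 + Δ := by
  have h : D ⊆ (D.filter (fun p => p ≠ u ∧ ¬ G.Adj u p)) ∪ ({u} ∪ nb G u) := by
    intro p hp
    rw [Finset.mem_union, Finset.mem_union, Finset.mem_filter, Finset.mem_singleton]
    by_cases h1 : p = u
    · exact Or.inr (Or.inl h1)
    · by_cases h2 : G.Adj u p
      · exact Or.inr (Or.inr (by simp [nb, h2]))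
      · exact Or.inl ⟨hp, h1, h2⟩
  have h1 := Finset.card_le_card h
  have h2 := Finset.card_union_le (D.filter (fun p => p ≠ u ∧ ¬ G.Adj u p)) ({u} ∪ nb G u)
  have h3 := Finset.card_union_le {u} (nb G u)
  rw [Finset.card_singleton] at h3
  omega

lemma step (G : SimpleGraph V) (Δ : ℕ) (D : Finset V) (hdeg : ∀ v, (nb G v).card ≤ Δ)
    (hD : 2 * D.card ≤ 3 * Δ) {N : ℕ} (hN : Δ + 1 ≤ N) (f : V → Fin (N + 1))
    (hf : OK G D f) : ∃ f' : V → Fin N, OK G D f' := by
  have hN0 : 0 < N := by omega
  by_cases hsurj : ∃ c, ∀ z ∈ D, f z ≠ c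
  · obtain ⟨c, hc⟩ := hsurj
    exact relabel G D hN0 f hf c hc
  push Not at hsurj
  set a : Fin (N + 1) → ℕ := fun s => (D.filter (fun z => f z = s)).card with ha
  have ha1 : ∀ s, 1 ≤ a s := by
    intro s
    obtain ⟨z, hz, hzs⟩ := hsurj s
    exact Finset.card_pos.2 ⟨z, Finset.mem_filter.2 ⟨hz, hzs⟩⟩
  have ha2 : ∀ s, a s ≤ 2 := hf.1
  have hsum : D.card = ∑ s, a s :=
    Finset.card_eq_sum_card_fiberwise (fun z _ => Finset.mem_coe.2 (Finset.mem_univ (f z)))
  set Sg := (univ : Finset (Fin (N + 1))).filter (fun s => a s = 1) with hSg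
  have hcount : D.card + Sg.card = 2 * (N + 1) := by
    rw [hsum, hSg, Finset.card_filter, ← Finset.sum_add_distrib]
    have : ∀ s ∈ (univ : Finset (Fin (N + 1))), (a s + if a s = 1 then 1 else 0) = 2 := by
      intro s _
      have h1 := ha1 s
      have h2 := ha2 s
      by_cases h : a s = 1
      · simp [h]
      · simp only [h, if_false]
        omega
    rw [Finset.sum_congr rfl this, Finset.sum_const, Finset.card_univ, Fintype.card_fin,
      smul_eq_mul]
    ring
  have hSg2 : 1 < Sg.card := by omega
  obtain ⟨s1, hs1, s2, hs2, hs12⟩ := Finset.one_lt_card.1 hSg2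
  have hs1' : a s1 = 1 := (Finset.mem_filter.1 hs1).2
  have hs2' : a s2 = 1 := (Finset.mem_filter.1 hs2).2
  obtain ⟨u, hu, hus⟩ := hsurj s1
  obtain ⟨w, hw, hws⟩ := hsurj s2
  have hu1 : a (f u) = 1 := by rw [hus]; exact hs1'
  have hw1 : a (f w) = 1 := by rw [hws]; exact hs2'
  have huw : f u ≠ f w := by rw [hus, hws]; exact hs12
  set A := D.filter (fun p => p ≠ u ∧ ¬ G.Adj u p) with hA
  set B := D.filter (fun p => p ≠ w ∧ ¬ G.Adj w p) with hB
  have hAc := card_nonadj G D Δ u hu (hdeg u)
  have hBc := card_nonadj G D Δ w hw (hdeg w)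
  rw [← hA] at hAc
  rw [← hB] at hBc
  by_cases hA1 : ∃ p ∈ A, a (f p) = 1
  · obtain ⟨p, hp, hp1⟩ := hA1
    rw [hA, Finset.mem_filter] at hp
    exact merge G D hN0 f hf u p hu hp.1 hp.2.1 hu1 hp1 hp.2.2
  by_cases hB1 : ∃ p ∈ B, a (f p) = 1
  · obtain ⟨p, hp, hp1⟩ := hB1
    rw [hB, Finset.mem_filter] at hp
    exact merge G D hN0 f hf w p hw hp.1 hp.2.1 hw1 hp1 hp.2.2
  push Not at hA1 hB1
  -- a double class with three incidences
  have hAs : A.card = ∑ s, (A.filter (fun z => f z = s)).card :=
    Finset.card_eq_sum_card_fiberwise (fun z _ => Finset.mem_coe.2 (Finset.mem_univ (f z)))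
  have hBs : B.card = ∑ s, (B.filter (fun z => f z = s)).card :=
    Finset.card_eq_sum_card_fiberwise (fun z _ => Finset.mem_coe.2 (Finset.mem_univ (f z)))
  have hSgc : (Sgᶜ).card + Sg.card = N + 1 := by
    rw [Finset.card_compl, Fintype.card_fin]
    have : Sg.card ≤ N + 1 := by
      have := Finset.card_le_univ Sg
      rwa [Fintype.card_fin] at this
    omega
  obtain ⟨s, hs⟩ : ∃ s, (if s ∈ Sg then 0 else 2) <
      (A.filter (fun z => f z = s)).card + (B.filter (fun z => f z = s)).card := by
    by_contra hcon
    push Not at hcon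
    have h1 : A.card + B.card ≤ ∑ s, (if s ∈ Sg then 0 else 2) := by
      rw [hAs, hBs, ← Finset.sum_add_distrib]
      exact Finset.sum_le_sum (fun s _ => hcon s)
    have h2 : ∑ s : Fin (N + 1), (if s ∈ Sg then 0 else 2) = 2 * (Sgᶜ).card := by
      have h3 : ∀ s : Fin (N + 1), (if s ∈ Sg then 0 else 2) = if s ∈ Sgᶜ then 2 else 0 := by
        intro s
        by_cases h : s ∈ Sg
        · simp [h]
        · simp [h]
      rw [Finset.sum_congr rfl (fun s _ => h3 s), Finset.sum_ite_mem, Finset.univ_inter,
        Finset.sum_const, smul_eq_mul, mul_comm]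
    omega
  have hsSg : s ∉ Sg := by
    intro hsS
    rw [if_pos hsS] at hs
    have hs1 : a s = 1 := (Finset.mem_filter.1 hsS).2
    have h1 : A.filter (fun z => f z = s) = ∅ := by
      apply Finset.eq_empty_of_forall_notMem
      intro z hz
      rw [Finset.mem_filter] at hz
      exact hA1 z hz.1 (by rw [hz.2]; exact hs1)
    have h2 : B.filter (fun z => f z = s) = ∅ := by
      apply Finset.eq_empty_of_forall_notMem
      intro z hz
      rw [Finset.mem_filter] at hz
      exact hB1 z hz.1 (by rw [hz.2]; exact hs1)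
    rw [h1, h2] at hs
    simp at hs
  rw [if_neg hsSg] at hs
  have has : a s ≠ 1 := fun h => hsSg (Finset.mem_filter.2 ⟨Finset.mem_univ _, h⟩)
  have has2 : (D.filter (fun z => f z = s)).card = 2 := by
    have h1 := ha1 s
    have h2 := ha2 s
    change a s = 2
    omega
  have hAl : (A.filter (fun z => f z = s)).card ≤ 2 := by
    rw [← has2]
    exact Finset.card_le_card (Finset.filter_subset_filter _ (Finset.filter_subset _ _))
  have hBl : (B.filter (fun z => f z = s)).card ≤ 2 := by
    rw [← has2]
    exact Finset.card_le_card (Finset.filter_subset_filter _ (Finset.filter_subset _ _))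
  obtain ⟨p, hp, q, hq, hpq⟩ : ∃ p ∈ A.filter (fun z => f z = s),
      ∃ q ∈ B.filter (fun z => f z = s), p ≠ q := by
    by_cases h : 1 < (A.filter (fun z => f z = s)).card
    · have hB0 : 0 < (B.filter (fun z => f z = s)).card := by omega
      obtain ⟨q, hq⟩ := Finset.card_pos.1 hB0
      obtain ⟨p, hp, hne⟩ := Finset.exists_mem_ne h q
      exact ⟨p, hp, q, hq, hne⟩
    · have hB1' : 1 < (B.filter (fun z => f z = s)).card := by omega
      have hA0 : 0 < (A.filter (fun z => f z = s)).card := by omega
      obtain ⟨p, hp⟩ := Finset.card_pos.1 hA0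
      obtain ⟨q, hq, hne⟩ := Finset.exists_mem_ne hB1' p
      exact ⟨p, hp, q, hq, hne.symm⟩
  rw [Finset.mem_filter, hA, Finset.mem_filter] at hp
  rw [Finset.mem_filter, hB, Finset.mem_filter] at hq
  obtain ⟨⟨hpD, hpu, hpadj⟩, hps⟩ := hp
  obtain ⟨⟨hqD, hqw, hqadj⟩, hqs⟩ := hq
  have hcl : ∀ z ∈ D, f z = s → z = p ∨ z = q := by
    intro z hz hzs
    have h1 : ({p, q} : Finset V) = D.filter (fun z => f z = s) := by
      apply Finset.eq_of_subset_of_card_le
      · intro y hy
        rw [Finset.mem_insert, Finset.mem_singleton] at hy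
        rw [Finset.mem_filter]
        rcases hy with rfl | rfl
        · exact ⟨hpD, hps⟩
        · exact ⟨hqD, hqs⟩
      · rw [has2, Finset.card_pair hpq]
    have h2 : z ∈ ({p, q} : Finset V) := by
      rw [h1]
      exact Finset.mem_filter.2 ⟨hz, hzs⟩
    rwa [Finset.mem_insert, Finset.mem_singleton] at h2
  have hfus : f u ≠ s := fun h => has (by rw [← h]; exact hu1)
  have hfws : f w ≠ s := fun h => has (by rw [← h]; exact hw1)
  have hu' : ∀ z ∈ D, f z = f u → z = u := by
    intro z hz h
    obtain ⟨a, ha⟩ := Finset.card_eq_one.1 hu1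
    have h1 : z ∈ D.filter (fun z => f z = f u) := Finset.mem_filter.2 ⟨hz, h⟩
    have h2 : u ∈ D.filter (fun z => f z = f u) := Finset.mem_filter.2 ⟨hu, rfl⟩
    rw [ha, Finset.mem_singleton] at h1 h2
    rw [h1, h2]
  have hw' : ∀ z ∈ D, f z = f w → z = w := by
    intro z hz h
    obtain ⟨a, ha⟩ := Finset.card_eq_one.1 hw1
    have h1 : z ∈ D.filter (fun z => f z = f w) := Finset.mem_filter.2 ⟨hz, h⟩
    have h2 : w ∈ D.filter (fun z => f z = f w) := Finset.mem_filter.2 ⟨hw, rfl⟩
    rw [ha, Finset.mem_singleton] at h1 h2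
    rw [h1, h2]
  set f' : V → Fin (N + 1) := Function.update (Function.update f p (f u)) q (f w) with hf'
  have fq : f' q = f w := by rw [hf', Function.update_self]
  have fp : f' p = f u := by rw [hf', Function.update_of_ne hpq, Function.update_self]
  have fz : ∀ z, z ≠ p → z ≠ q → f' z = f z := by
    intro z h1 h2
    rw [hf', Function.update_of_ne h2, Function.update_of_ne h1]
  apply relabel G D hN0 f' _ s
  · intro z hz
    by_cases h1 : z = q
    · rw [h1, fq]
      exact hfws
    · by_cases h2 : z = p
      · rw [h2, fp]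
        exact hfus
      · rw [fz z h2 h1]
        intro h3
        rcases hcl z hz h3 with h4 | h4
        · exact h2 h4
        · exact h1 h4
  · refine ⟨?_, ?_⟩
    · intro s'
      by_cases hs'u : s' = f u
      · have : D.filter (fun z => f' z = s') ⊆ {u, p} := by
          intro z hz
          rw [Finset.mem_filter] at hz
          rw [Finset.mem_insert, Finset.mem_singleton]
          by_cases h1 : z = q
          · rw [h1, fq, hs'u] at hz
            exact absurd hz.2.symm huw
          · by_cases h2 : z = p
            · exact Or.inr h2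
            · rw [fz z h2 h1, hs'u] at hz
              exact Or.inl (hu' z hz.1 hz.2)
        exact (Finset.card_le_card this).trans Finset.card_le_two
      · by_cases hs'w : s' = f w
        · have : D.filter (fun z => f' z = s') ⊆ {w, q} := by
            intro z hz
            rw [Finset.mem_filter] at hz
            rw [Finset.mem_insert, Finset.mem_singleton]
            by_cases h1 : z = q
            · exact Or.inr h1
            · by_cases h2 : z = p
              · rw [h2, fp, hs'w] at hz
                exact absurd hz.2 huw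
              · rw [fz z h2 h1, hs'w] at hz
                exact Or.inl (hw' z hz.1 hz.2)
          exact (Finset.card_le_card this).trans Finset.card_le_two
        · refine le_trans (Finset.card_le_card ?_) (hf.1 s')
          intro z hz
          rw [Finset.mem_filter] at hz ⊢
          refine ⟨hz.1, ?_⟩
          by_cases h1 : z = q
          · rw [h1, fq] at hz
            exact absurd hz.2.symm hs'w
          · by_cases h2 : z = p
            · rw [h2, fp] at hz
              exact absurd hz.2.symm hs'u
            · rw [fz z h2 h1] at hz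
              exact hz.2
    · have key : ∀ z ∈ D, ∀ z' ∈ D, z ≠ z' → (z = p ∨ z = q) → f' z = f' z' →
          ¬ G.Adj z z' := by
        intro z hz z' hz' hzz hpq' h
        rcases hpq' with h1 | h1
        · rw [h1] at h hzz ⊢
          rw [fp] at h
          by_cases h2 : z' = q
          · rw [h2, fq] at h
            exact absurd h huw
          · rw [fz z' hzz.symm h2] at h
            rw [hu' z' hz' h.symm]
            exact fun h' => hpadj h'.symm
        · rw [h1] at h hzz ⊢
          rw [fq] at h
          by_cases h2 : z' = p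
          · rw [h2, fp] at h
            exact absurd h.symm huw
          · rw [fz z' h2 hzz.symm] at h
            rw [hw' z' hz' h.symm]
            exact fun h' => hqadj h'.symm
      intro z hz z' hz' hzz h
      by_cases h1 : z = p ∨ z = q
      · exact key z hz z' hz' hzz h1 h
      · by_cases h2 : z' = p ∨ z' = q
        · exact fun h' => key z' hz' z hz hzz.symm h2 h.symm h'.symm
        · push Not at h1 h2
          rw [fz z h1.1 h1.2, fz z' h2.1 h2.2] at h
          exact hf.2 z hz z' hz' hzz h

end CLSaux

open CLSaux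

theorem stmt_CLS : Stmt_CLS.{u} := by
  intro V _ G Δ D _ hdeg hD
  have hD' : 2 * D.card ≤ 3 * Δ := by
    have : (2 : ℝ) * D.card ≤ 3 * Δ := by linarith
    exact_mod_cast this
  have hdesc : ∀ j : ℕ, (∃ f : V → Fin (Δ + 1 + j), OK G D f) →
      ∃ f : V → Fin (Δ + 1), OK G D f := by
    intro j
    induction j with
    | zero => exact fun h => h
    | succ j ih =>
      rintro ⟨f, hf⟩
      exact ih (step G Δ D hdeg hD' (by omega) f hf)
  have hstart : ∃ f : V → Fin (Δ + 1 + Fintype.card V), OK G D f := by
    let e := Fintype.equivFin V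
    have hinj : ∀ z z' : V, Fin.natAdd (Δ + 1) (e z) = Fin.natAdd (Δ + 1) (e z') → z = z' := by
      intro z z' h
      apply e.injective
      apply Fin.ext
      have := congrArg Fin.val h
      simpa using this
    refine ⟨fun z => Fin.natAdd (Δ + 1) (e z), ?_, ?_⟩
    · intro s
      refine le_trans ?_ (by norm_num : 1 ≤ 2)
      rw [Finset.card_le_one]
      intro z hz z' hz'
      rw [Finset.mem_filter] at hz hz'
      exact hinj z z' (hz.2.trans hz'.2.symm)
    · intro z _ z' _ hne h
      exact absurd (hinj z z' h) hne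
  exact hdesc _ hstart

end Pool.Agent.Work.MP_db9399_all
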