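import Pool.Agent.Work.MP_db9399_all.Interface

/-!
# Block DEC: the almost-clique decomposition
-/

set_option autoImplicit false

namespace Pool.Agent.Work.MP_db9399_all

open Finset Classical

universe u

set_option linter.unusedSectionVars false

namespace DECaux

variable {V : Type u} [Fintype V]

lemma mem_nb (G : SimpleGraph V) (v w : V) : w ∈ nb G v ↔ G.Adj v w := by simp [nb]

/-- double counting -/
lemma dc (G : SimpleGraph V) (A B : Finset V) :
    ∑ a ∈ A, (nb G a ∩ B).card = ∑ b ∈ B, (nb G b ∩ A).card := by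
  have h := Finset.sum_card_bipartiteAbove_eq_sum_card_bipartiteBelow (s := A) (t := B)
    (fun a b => G.Adj a b)
  have h1 : ∀ a ∈ A, (nb G a ∩ B).card = (bipartiteAbove (fun a b => G.Adj a b) B a).card := by
    intro a _
    congr 1
    ext b
    simp [bipartiteAbove, nb, and_comm]
  have h2 : ∀ b ∈ B, (nb G b ∩ A).card = (bipartiteBelow (fun a b => G.Adj a b) A b).card := by
    intro b _
    congr 1
    ext a
    simp [bipartiteBelow, nb, and_comm, G.adj_comm]
  rw [Finset.sum_congr rfl h1, Finset.sum_congr rfl h2]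
  exact h

/-- the non-neighbours of `y` in `A`, other than `y` -/
noncomputable def ms (G : SimpleGraph V) (A : Finset V) (y : V) : Finset V :=
  A.filter (fun y' => y ≠ y' ∧ ¬ G.Adj y y')

lemma mis_card (G : SimpleGraph V) (A : Finset V) :
    (mis G A).card = ∑ y ∈ A, (ms G A y).card := by
  simp only [mis, ms, Finset.card_filter, Finset.sum_product]

lemma card_split (G : SimpleGraph V) (A : Finset V) (y : V) (hy : y ∈ A) :
    A.card = 1 + (ms G A y).card + (nb G y ∩ A).card := by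
  have h1 : (A.erase y).card + 1 = A.card := Finset.card_erase_add_one hy
  have h2 := Finset.card_filter_add_card_filter_not (s := A.erase y) (fun y' => G.Adj y y')
  have h3 : (A.erase y).filter (fun y' => G.Adj y y') = nb G y ∩ A := by
    ext z
    simp only [mem_filter, mem_erase, mem_inter, mem_nb]
    constructor
    · rintro ⟨⟨_, h⟩, h'⟩
      exact ⟨h', h⟩
    · rintro ⟨h, h'⟩
      exact ⟨⟨fun e => G.loopless.irrefl y (e ▸ h), h'⟩, h⟩
  have h4 : (A.erase y).filter (fun y' => ¬ G.Adj y y') = ms G A y := by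
    ext z
    simp only [mem_filter, mem_erase, ms]
    constructor
    · rintro ⟨⟨h, h'⟩, h''⟩
      exact ⟨h', fun e => h e.symm, h''⟩
    · rintro ⟨h, h', h''⟩
      exact ⟨⟨fun e => h' e.symm, h⟩, h''⟩
  rw [h3, h4] at h2
  omega

/-- two big subsets of a set of size at most `Δ` -/
lemma inter_big (N A B : Finset V) (D a b : ℝ) (hN : (N.card : ℝ) ≤ D)
    (hA : a ≤ ((N ∩ A).card : ℝ)) (hB : b ≤ ((N ∩ B).card : ℝ)) :
    a + b - D ≤ ((A ∩ B).card : ℝ) := by
  have h1 : ((N ∩ A) ∪ (N ∩ B)).card ≤ N.card :=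
    Finset.card_le_card (Finset.union_subset Finset.inter_subset_left Finset.inter_subset_left)
  have h2 := Finset.card_union_add_card_inter (N ∩ A) (N ∩ B)
  have h3 : ((N ∩ A) ∩ (N ∩ B)).card ≤ (A ∩ B).card := by
    apply Finset.card_le_card
    intro z hz
    simp only [mem_inter] at hz ⊢
    exact ⟨hz.1.2, hz.2.2⟩
  have h1' : ((((N ∩ A) ∪ (N ∩ B)).card : ℕ) : ℝ) ≤ (N.card : ℝ) := by exact_mod_cast h1
  have h2' : ((((N ∩ A) ∪ (N ∩ B)).card : ℕ) : ℝ) + (((N ∩ A) ∩ (N ∩ B)).card : ℝ) =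
      ((N ∩ A).card : ℝ) + ((N ∩ B).card : ℝ) := by exact_mod_cast h2
  have h3' : (((N ∩ A) ∩ (N ∩ B)).card : ℝ) ≤ ((A ∩ B).card : ℝ) := by exact_mod_cast h3
  linarith

/-- dense vertices -/
def Dense (G : SimpleGraph V) (Δ : ℕ) (θ : ℝ) (x : V) : Prop :=
  (1 - θ ^ 2) * (Δ : ℝ) < ((nb G x).card : ℝ) ∧
    ((mis G (nb G x)).card : ℝ) < 2 * θ ^ 2 * (Δ : ℝ) ^ 2

/-- the bad neighbours -/
noncomputable def bad (G : SimpleGraph V) (Δ : ℕ) (θ : ℝ) (x : V) : Finset V :=
  (nb G x).filter (fun y => θ * Δ ≤ ((ms G (nb G x) y).card : ℝ))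

section
variable (G : SimpleGraph V) (Δ : ℕ) (η θ : ℝ) (hθ : 0 < θ) (hθη : θ ≤ η / 8)
  (hη : η ≤ 1 / 8) (hθ1 : θ ≤ 1 / 100) (hΔ : 1 / θ ^ 2 ≤ (Δ : ℝ))
  (hdeg : ∀ v, (nb G v).card ≤ Δ)

include hθ hΔ in
lemma one_le : 1 ≤ θ ^ 2 * (Δ : ℝ) := by
  have := mul_le_mul_of_nonneg_left hΔ (by positivity : (0 : ℝ) ≤ θ ^ 2)
  rwa [mul_one_div_cancel (by positivity)] at this

include hθ hΔ in
lemma Dpos : (0 : ℝ) < Δ := by
  have : (0 : ℝ) < 1 / θ ^ 2 := by positivity
  linarith

include hθ hΔ in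
lemma bad_card (x : V) (hx : Dense G Δ θ x) : ((bad G Δ θ x).card : ℝ) < 2 * θ * Δ := by
  have hD := Dpos Δ θ hθ hΔ
  have h1 : ((bad G Δ θ x).card : ℝ) * (θ * Δ) ≤ ((mis G (nb G x)).card : ℝ) := by
    rw [mis_card]
    push_cast
    calc ((bad G Δ θ x).card : ℝ) * (θ * Δ) = ∑ _y ∈ bad G Δ θ x, (θ * Δ) := by
          rw [Finset.sum_const, nsmul_eq_mul]
      _ ≤ ∑ y ∈ bad G Δ θ x, ((ms G (nb G x) y).card : ℝ) := by
          apply Finset.sum_le_sum
          intro y hy
          exact (Finset.mem_filter.1 hy).2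
      _ ≤ ∑ y ∈ nb G x, ((ms G (nb G x) y).card : ℝ) := by
          apply Finset.sum_le_sum_of_subset_of_nonneg
          · exact Finset.filter_subset _ _
          · intros
            positivity
  have h2 := hx.2
  have h3 : 0 < θ * Δ := by positivity
  by_contra hcon
  push Not at hcon
  have h4 : 2 * θ * Δ * (θ * Δ) ≤ ((bad G Δ θ x).card : ℝ) * (θ * Δ) :=
    mul_le_mul_of_nonneg_right hcon h3.le
  nlinarith

include hθ hΔ hθ1 in
lemma good_deg (x : V) (hx : Dense G Δ θ x) (y : V) (hy : y ∈ nb G x)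
    (hy' : y ∉ bad G Δ θ x) : (1 - 3 * θ) * Δ ≤ ((nb G y ∩ nb G x).card : ℝ) := by
  have hD := Dpos Δ θ hθ hΔ
  have h1 := one_le Δ θ hθ hΔ
  have h2 : ((ms G (nb G x) y).card : ℝ) < θ * Δ := by
    by_contra hcon
    push Not at hcon
    exact hy' (Finset.mem_filter.2 ⟨hy, hcon⟩)
  have h3 := card_split G (nb G x) y hy
  have h3' : ((nb G x).card : ℝ) = 1 + ((ms G (nb G x) y).card : ℝ) +
      ((nb G y ∩ nb G x).card : ℝ) := by exact_mod_cast h3
  have h4 := hx.1
  have h5 : θ ^ 2 * (Δ : ℝ) ≤ θ * Δ / 100 := by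
    have : θ ^ 2 ≤ θ / 100 := by nlinarith
    nlinarith
  nlinarith

include hθ hΔ hθ1 hdeg in
lemma step_big (x x' : V) (hx : Dense G Δ θ x) (hx' : Dense G Δ θ x')
    (h : 4 * θ * Δ ≤ ((nb G x ∩ nb G x').card : ℝ)) :
    (1 - 6 * θ) * Δ ≤ ((nb G x ∩ nb G x').card : ℝ) := by
  have h1 := bad_card G Δ θ hθ hΔ x hx
  have h2 := bad_card G Δ θ hθ hΔ x' hx'
  obtain ⟨y, hy, hy'⟩ : ∃ y ∈ nb G x ∩ nb G x', y ∉ bad G Δ θ x ∪ bad G Δ θ x' := by
    by_contra hcon
    push Not at hcon
    have h3 : (nb G x ∩ nb G x').card ≤ (bad G Δ θ x ∪ bad G Δ θ x').card :=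
      Finset.card_le_card (fun y hy => hcon y hy)
    have h4 := Finset.card_union_le (bad G Δ θ x) (bad G Δ θ x')
    have h5 : ((nb G x ∩ nb G x').card : ℝ) ≤ ((bad G Δ θ x).card : ℝ) +
        ((bad G Δ θ x').card : ℝ) := by exact_mod_cast h3.trans h4
    linarith
  rw [Finset.mem_inter] at hy
  rw [Finset.mem_union, not_or] at hy'
  have h3 := good_deg G Δ θ hθ hθ1 hΔ x hx y hy.1 hy'.1
  have h4 := good_deg G Δ θ hθ hθ1 hΔ x' hx' y hy.2 hy'.2
  have h5 := inter_big (nb G y) (nb G x) (nb G x') (Δ : ℝ) _ _ (by exact_mod_cast hdeg y) h3 h4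
  linarith

/-- the almost clique of `x` -/
noncomputable def D (x : V) : Finset V :=
  univ.filter (fun v => (1 - η) * Δ ≤ ((nb G v ∩ nb G x).card : ℝ))

include hθ hΔ hdeg in
lemma Esum (x : V) (hx : Dense G Δ θ x) :
    (∑ y ∈ nb G x, ((nb G y \ nb G x).card : ℝ)) ≤ 4 * θ ^ 2 * (Δ : ℝ) ^ 2 := by
  have hD := Dpos Δ θ hθ hΔ
  have h1 := one_le Δ θ hθ hΔ
  have h2 : ∀ y ∈ nb G x, ((nb G y \ nb G x).card : ℝ) ≤
      (Δ : ℝ) - ((nb G x).card : ℝ) + 1 + ((ms G (nb G x) y).card : ℝ) := by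
    intro y hy
    have h3 := card_split G (nb G x) y hy
    have h3' : ((nb G x).card : ℝ) = 1 + ((ms G (nb G x) y).card : ℝ) +
      ((nb G y ∩ nb G x).card : ℝ) := by exact_mod_cast h3
    have h4 := Finset.card_sdiff_add_card_inter (nb G y) (nb G x)
    have h4' : ((nb G y \ nb G x).card : ℝ) + ((nb G y ∩ nb G x).card : ℝ) =
      ((nb G y).card : ℝ) := by exact_mod_cast h4
    have h5 : ((nb G y).card : ℝ) ≤ Δ := by exact_mod_cast hdeg y
    linarith
  calc (∑ y ∈ nb G x, ((nb G y \ nb G x).card : ℝ))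
      ≤ ∑ y ∈ nb G x, ((Δ : ℝ) - ((nb G x).card : ℝ) + 1 + ((ms G (nb G x) y).card : ℝ)) :=
        Finset.sum_le_sum h2
    _ = ((nb G x).card : ℝ) * ((Δ : ℝ) - ((nb G x).card : ℝ) + 1) +
        ((mis G (nb G x)).card : ℝ) := by
        rw [Finset.sum_add_distrib, Finset.sum_const, nsmul_eq_mul, mis_card]
        push_cast
        ring
    _ ≤ 4 * θ ^ 2 * (Δ : ℝ) ^ 2 := by
        have h3 := hx.1
        have h4 := hx.2
        have h5 : ((nb G x).card : ℝ) ≤ Δ := by exact_mod_cast hdeg x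
        have h6 : (0 : ℝ) ≤ ((nb G x).card : ℝ) := by positivity
        have h7 : (Δ : ℝ) - ((nb G x).card : ℝ) + 1 ≤ 2 * θ ^ 2 * Δ := by nlinarith
        have h8 : 0 ≤ (Δ : ℝ) - ((nb G x).card : ℝ) + 1 := by linarith
        have h9 : ((nb G x).card : ℝ) * ((Δ : ℝ) - ((nb G x).card : ℝ) + 1) ≤
          (Δ : ℝ) * (2 * θ ^ 2 * Δ) := mul_le_mul h5 h7 h8 hD.le
        nlinarith

include hθ hΔ hdeg hη hθη in
lemma D_out (x : V) (hx : Dense G Δ θ x) :
    ((D G Δ η x \ nb G x).card : ℝ) ≤ 5 * θ ^ 2 * Δ := by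
  have hD := Dpos Δ θ hθ hΔ
  have h1 : (((D G Δ η x \ nb G x).card : ℝ)) * ((1 - η) * Δ) ≤ 4 * θ ^ 2 * (Δ : ℝ) ^ 2 := by
    calc (((D G Δ η x \ nb G x).card : ℝ)) * ((1 - η) * Δ)
        = ∑ _v ∈ D G Δ η x \ nb G x, ((1 - η) * Δ) := by
          rw [Finset.sum_const, nsmul_eq_mul]
      _ ≤ ∑ v ∈ D G Δ η x \ nb G x, ((nb G v ∩ nb G x).card : ℝ) := by
          apply Finset.sum_le_sum
          intro v hv
          rw [Finset.mem_sdiff] at hv
          exact (Finset.mem_filter.1 hv.1).2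
      _ = ((∑ v ∈ D G Δ η x \ nb G x, (nb G v ∩ nb G x).card : ℕ) : ℝ) := by push_cast; rfl
      _ = ((∑ y ∈ nb G x, (nb G y ∩ (D G Δ η x \ nb G x)).card : ℕ) : ℝ) := by rw [dc]
      _ ≤ ((∑ y ∈ nb G x, (nb G y \ nb G x).card : ℕ) : ℝ) := by
          apply Nat.cast_le.2
          apply Finset.sum_le_sum
          intro y _
          apply Finset.card_le_card
          intro z hz
          rw [Finset.mem_inter, Finset.mem_sdiff] at hz
          rw [Finset.mem_sdiff]
          exact ⟨hz.1, hz.2.2⟩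
      _ ≤ 4 * θ ^ 2 * (Δ : ℝ) ^ 2 := by
          push_cast
          exact Esum G Δ θ hθ hΔ hdeg x hx
  have h2 : (0 : ℝ) ≤ ((D G Δ η x \ nb G x).card : ℝ) := by positivity
  by_contra hcon
  push Not at hcon
  have h3 : 5 * θ ^ 2 * Δ * ((1 - η) * Δ) ≤
      (((D G Δ η x \ nb G x).card : ℝ)) * ((1 - η) * Δ) := by
    apply mul_le_mul_of_nonneg_right hcon.le
    have : 0 < 1 - η := by linarith
    positivity
  have h4 : 0 < θ ^ 2 * (Δ : ℝ) ^ 2 := by positivity
  nlinarith

include hθ hΔ hθη hθ1 in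
lemma D_in (x : V) (hx : Dense G Δ θ x) :
    ((nb G x \ D G Δ η x).card : ℝ) ≤ 2 * θ * Δ := by
  have hD := Dpos Δ θ hθ hΔ
  have h1 : nb G x \ D G Δ η x ⊆ bad G Δ θ x := by
    intro y hy
    rw [Finset.mem_sdiff] at hy
    by_contra hcon
    have h2 := good_deg G Δ θ hθ hθ1 hΔ x hx y hy.1 hcon
    apply hy.2
    refine Finset.mem_filter.2 ⟨Finset.mem_univ _, ?_⟩
    nlinarith
  have h2 := bad_card G Δ θ hθ hΔ x hx
  have h3 : ((nb G x \ D G Δ η x).card : ℝ) ≤ ((bad G Δ θ x).card : ℝ) := by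
    exact_mod_cast Finset.card_le_card h1
  linarith

end

end DECaux

open DECaux

theorem stmt_DEC : Stmt_DEC.{u} := by
  intro V _ G Δ η θ hθ hθη hη hθ1 hΔ hdeg
  have hD := Dpos Δ θ hθ hΔ
  have hη0 : 0 < η := by linarith
  have hθ2 : θ ^ 2 ≤ θ / 100 := by nlinarith
  have hdeg' : ∀ v, ((nb G v).card : ℝ) ≤ Δ := fun v => by exact_mod_cast hdeg v
  -- a maximal set of pairwise unrelated dense vertices
  let Ok : Finset V → Prop := fun R => (∀ x ∈ R, Dense G Δ θ x) ∧
    ∀ x ∈ R, ∀ x' ∈ R, x ≠ x' → ((nb G x ∩ nb G x').card : ℝ) < Δ / 2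
  obtain ⟨R, hR, hmax⟩ : ∃ R : Finset V, Ok R ∧ ∀ R', Ok R' → R'.card ≤ R.card := by
    have hne : ((univ : Finset (Finset V)).filter Ok).Nonempty :=
      ⟨∅, Finset.mem_filter.2 ⟨Finset.mem_univ _, by simp [Ok]⟩⟩
    obtain ⟨R, hR, hm⟩ := Finset.exists_max_image _ (fun R => R.card) hne
    exact ⟨R, (Finset.mem_filter.1 hR).2,
      fun R' hR' => hm R' (Finset.mem_filter.2 ⟨Finset.mem_univ _, hR'⟩)⟩
  -- disjointness
  have hdisj : ∀ x ∈ R, ∀ x' ∈ R, ∀ v, v ∈ D G Δ η x → v ∈ D G Δ η x' → x = x' := by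
    intro x hx x' hx' v hv hv'
    by_contra hne
    have h1 := (Finset.mem_filter.1 hv).2
    have h2 := (Finset.mem_filter.1 hv').2
    have h3 := inter_big (nb G v) (nb G x) (nb G x') (Δ : ℝ) _ _ (hdeg' v) h1 h2
    have h4 := hR.2 x hx x' hx' hne
    nlinarith
  -- every dense vertex is covered
  have hcov : ∀ x', Dense G Δ θ x' → ∃ x ∈ R, x' ∈ D G Δ η x := by
    intro x' hx'
    by_cases hmem : x' ∈ R
    · refine ⟨x', hmem, Finset.mem_filter.2 ⟨Finset.mem_univ _, ?_⟩⟩
      rw [Finset.inter_self]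
      have := hx'.1
      nlinarith
    · have h1 : ∃ x ∈ R, (Δ : ℝ) / 2 ≤ ((nb G x' ∩ nb G x).card : ℝ) := by
        by_contra hcon
        push Not at hcon
        have h2 : Ok (insert x' R) := by
          refine ⟨?_, ?_⟩
          · intro x hx
            rcases Finset.mem_insert.1 hx with rfl | hx
            · exact hx'
            · exact hR.1 x hx
          · intro x hx y hy hne
            rcases Finset.mem_insert.1 hx with h5 | h5
            · rcases Finset.mem_insert.1 hy with h6 | h6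
              · exact absurd (h5.trans h6.symm) hne
              · rw [h5]
                exact hcon y h6
            · rcases Finset.mem_insert.1 hy with h6 | h6
              · rw [Finset.inter_comm, h6]
                exact hcon x h5
              · exact hR.2 x h5 y h6 hne
        have h3 := hmax _ h2
        rw [Finset.card_insert_of_notMem hmem] at h3
        omega
      obtain ⟨x, hx, h2⟩ := h1
      refine ⟨x, hx, Finset.mem_filter.2 ⟨Finset.mem_univ _, ?_⟩⟩
      have h3 := step_big G Δ θ hθ hθ1 hΔ hdeg x' x hx' (hR.1 x hx) (by nlinarith)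
      nlinarith
  -- the blocks
  let blk : V → Option V := fun v => if h : ∃ x ∈ R, v ∈ D G Δ η x then some h.choose else none
  have hblk : ∀ v x, blk v = some x ↔ x ∈ R ∧ v ∈ D G Δ η x := by
    intro v x
    by_cases h : ∃ x ∈ R, v ∈ D G Δ η x
    · simp only [blk, dif_pos h, Option.some.injEq]
      constructor
      · rintro rfl
        exact h.choose_spec
      · intro hx
        exact hdisj _ h.choose_spec.1 x hx.1 v h.choose_spec.2 hx.2
    · simp only [blk, dif_neg h]
      constructor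
      · intro hc
        exact absurd hc (by simp)
      · intro hx
        exact absurd ⟨x, hx⟩ h
  have hbs : ∀ j ∈ R, bs blk j = D G Δ η j := by
    intro j hj
    ext v
    simp [bs, hblk, hj]
  have hbs' : ∀ j, j ∉ R → bs blk j = ∅ := by
    intro j hj
    ext v
    simp [bs, hblk, hj]
  refine ⟨blk, ?_, ?_, ?_, ?_, ?_⟩
  · -- size
    intro j
    by_cases hj : j ∈ R
    · rw [hbs j hj]
      have h1 := D_out G Δ η θ hθ hθη hη hΔ hdeg j (hR.1 j hj)
      have h2 := Finset.card_sdiff_add_card_inter (D G Δ η j) (nb G j)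
      have h3 : ((D G Δ η j ∩ nb G j).card : ℝ) ≤ ((nb G j).card : ℝ) := by
        exact_mod_cast Finset.card_le_card Finset.inter_subset_right
      have h2' : ((D G Δ η j \ nb G j).card : ℝ) + ((D G Δ η j ∩ nb G j).card : ℝ) =
        ((D G Δ η j).card : ℝ) := by exact_mod_cast h2
      have h4 := hdeg' j
      nlinarith
    · rw [hbs' j hj]
      simp only [Finset.card_empty, Nat.cast_zero]
      positivity
  · -- ext
    intro j z hz
    by_cases hj : j ∈ R
    · rw [hbs j hj] at hz ⊢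
      have h1 := D_in G Δ η θ hθ hθη hθ1 hΔ j (hR.1 j hj)
      have h2 := (Finset.mem_filter.1 hz).2
      have h3 : (nb G z ∩ nb G j).card ≤ (nb G z ∩ D G Δ η j).card +
          (nb G j \ D G Δ η j).card := by
        calc (nb G z ∩ nb G j).card
            ≤ ((nb G z ∩ D G Δ η j) ∪ (nb G j \ D G Δ η j)).card := by
              apply Finset.card_le_card
              intro y hy
              rw [Finset.mem_inter] at hy
              rw [Finset.mem_union, Finset.mem_inter, Finset.mem_sdiff]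
              by_cases hyD : y ∈ D G Δ η j
              · exact Or.inl ⟨hy.1, hyD⟩
              · exact Or.inr ⟨hy.2, hyD⟩
          _ ≤ _ := Finset.card_union_le _ _
      have h3' : ((nb G z ∩ nb G j).card : ℝ) ≤ ((nb G z ∩ D G Δ η j).card : ℝ) +
          ((nb G j \ D G Δ η j).card : ℝ) := by exact_mod_cast h3
      have h4 := Finset.card_sdiff_add_card_inter (nb G z) (D G Δ η j)
      have h4' : ((nb G z \ D G Δ η j).card : ℝ) + ((nb G z ∩ D G Δ η j).card : ℝ) =
        ((nb G z).card : ℝ) := by exact_mod_cast h4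
      have h5 := hdeg' z
      nlinarith
    · rw [hbs' j hj] at hz
      exact absurd hz (Finset.notMem_empty _)
  · -- out
    intro j x hx
    by_cases hj : j ∈ R
    · rw [hbs j hj] at hx ⊢
      have h1 := D_out G Δ η θ hθ hθη hη hΔ hdeg j (hR.1 j hj)
      have h2 : ((nb G x ∩ nb G j).card : ℝ) < (1 - η) * Δ := by
        by_contra hcon
        push Not at hcon
        exact hx (Finset.mem_filter.2 ⟨Finset.mem_univ _, hcon⟩)
      have h3 : (nb G x ∩ D G Δ η j).card ≤ (nb G x ∩ nb G j).card +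
          (D G Δ η j \ nb G j).card := by
        calc (nb G x ∩ D G Δ η j).card
            ≤ ((nb G x ∩ nb G j) ∪ (D G Δ η j \ nb G j)).card := by
              apply Finset.card_le_card
              intro y hy
              rw [Finset.mem_inter] at hy
              rw [Finset.mem_union, Finset.mem_inter, Finset.mem_sdiff]
              by_cases hyD : y ∈ nb G j
              · exact Or.inl ⟨hy.1, hyD⟩
              · exact Or.inr ⟨hy.2, hyD⟩
          _ ≤ _ := Finset.card_union_le _ _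
      have h3' : ((nb G x ∩ D G Δ η j).card : ℝ) ≤ ((nb G x ∩ nb G j).card : ℝ) +
          ((D G Δ η j \ nb G j).card : ℝ) := by exact_mod_cast h3
      nlinarith
    · rw [hbs' j hj]
      simp only [Finset.inter_empty, Finset.card_empty, Nat.cast_zero]
      have : 0 < 1 - η / 2 := by linarith
      positivity
  · -- edges
    intro j
    by_cases hj : j ∈ R
    · rw [hbs j hj]
      have hx := hR.1 j hj
      have h1 := D_out G Δ η θ hθ hθη hη hΔ hdeg j hx
      have h2 := D_in G Δ η θ hθ hθη hθ1 hΔ j hx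
      have h3 := Esum G Δ θ hθ hΔ hdeg j hx
      set W := nb G j \ D G Δ η j with hW
      have h4 : ∑ z ∈ D G Δ η j, ((nb G z \ D G Δ η j).card : ℝ) =
          ∑ z ∈ D G Δ η j \ nb G j, ((nb G z \ D G Δ η j).card : ℝ) +
          ∑ z ∈ D G Δ η j ∩ nb G j, ((nb G z \ D G Δ η j).card : ℝ) := by
        rw [← Finset.sum_union (Finset.disjoint_left.2 (fun z hz hz' =>
          (Finset.mem_sdiff.1 hz).2 (Finset.mem_inter.1 hz').2)), Finset.sdiff_union_inter]
      have h5 : ∑ z ∈ D G Δ η j \ nb G j, ((nb G z \ D G Δ η j).card : ℝ) ≤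
          5 * θ ^ 2 * (Δ : ℝ) ^ 2 := by
        calc ∑ z ∈ D G Δ η j \ nb G j, ((nb G z \ D G Δ η j).card : ℝ)
            ≤ ∑ _z ∈ D G Δ η j \ nb G j, (Δ : ℝ) := by
              apply Finset.sum_le_sum
              intro z _
              refine le_trans ?_ (hdeg' z)
              exact_mod_cast Finset.card_le_card Finset.sdiff_subset
          _ = ((D G Δ η j \ nb G j).card : ℝ) * Δ := by
              rw [Finset.sum_const, nsmul_eq_mul]
          _ ≤ 5 * θ ^ 2 * Δ * Δ := mul_le_mul_of_nonneg_right h1 hD.le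
          _ = _ := by ring
      have h6 : ∑ z ∈ D G Δ η j ∩ nb G j, ((nb G z \ D G Δ η j).card : ℝ) ≤
          4 * θ ^ 2 * (Δ : ℝ) ^ 2 + 2 * θ * (Δ : ℝ) ^ 2 := by
        calc ∑ z ∈ D G Δ η j ∩ nb G j, ((nb G z \ D G Δ η j).card : ℝ)
            ≤ ∑ z ∈ nb G j, ((nb G z \ D G Δ η j).card : ℝ) := by
              apply Finset.sum_le_sum_of_subset_of_nonneg Finset.inter_subset_right
              intros
              positivity
          _ ≤ ∑ z ∈ nb G j, (((nb G z \ nb G j).card : ℝ) + ((nb G z ∩ W).card : ℝ)) := by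
              apply Finset.sum_le_sum
              intro z _
              have : (nb G z \ D G Δ η j).card ≤ (nb G z \ nb G j).card +
                  (nb G z ∩ W).card := by
                refine le_trans (Finset.card_le_card ?_) (Finset.card_union_le _ _)
                intro y hy
                rw [Finset.mem_sdiff] at hy
                rw [Finset.mem_union, Finset.mem_inter, Finset.mem_sdiff, hW,
                  Finset.mem_sdiff]
                by_cases hyj : y ∈ nb G j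
                · exact Or.inr ⟨hy.1, hyj, hy.2⟩
                · exact Or.inl ⟨hy.1, hyj⟩
              exact_mod_cast this
          _ = ∑ z ∈ nb G j, ((nb G z \ nb G j).card : ℝ) +
              ((∑ z ∈ nb G j, (nb G z ∩ W).card : ℕ) : ℝ) := by
              rw [Finset.sum_add_distrib]
              push_cast
              rfl
          _ = ∑ z ∈ nb G j, ((nb G z \ nb G j).card : ℝ) +
              ((∑ w ∈ W, (nb G w ∩ nb G j).card : ℕ) : ℝ) := by rw [dc]
          _ ≤ 4 * θ ^ 2 * (Δ : ℝ) ^ 2 + ∑ _w ∈ W, (Δ : ℝ) := by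
              refine add_le_add h3 ?_
              push_cast
              apply Finset.sum_le_sum
              intro w _
              refine le_trans ?_ (hdeg' w)
              exact_mod_cast Finset.card_le_card Finset.inter_subset_left
          _ ≤ 4 * θ ^ 2 * (Δ : ℝ) ^ 2 + 2 * θ * (Δ : ℝ) ^ 2 := by
              rw [Finset.sum_const, nsmul_eq_mul]
              nlinarith
      rw [h4]
      have h7 : 0 < (Δ : ℝ) ^ 2 := by positivity
      nlinarith
    · rw [hbs' j hj]
      simp only [Finset.sum_empty]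
      positivity
  · -- sparse
    intro x hx
    by_contra hcon
    push Not at hcon
    obtain ⟨j, hj, hxj⟩ := hcov x hcon
    have := (hblk x j).2 ⟨hj, hxj⟩
    rw [hx] at this
    exact absurd this (by simp)

end Pool.Agent.Work.MP_db9399_all
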