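import Pool.Agent.Work.MP_db9399_all.Interface

/-!
# Block PAL: palettes
-/

set_option autoImplicit false

namespace Pool.Agent.Work.MP_db9399_all

open Finset Classical

universe u

theorem stmt_PAL : Stmt_PAL.{u} := by
  intro V _ D n k h δ F hδ hF hk
  -- the bad colours
  set Bd := (range (n + h)).filter (fun a => δ < ((D.filter (fun z => a ∈ F z)).card : ℝ))
    with hBd
  have h1 : δ * (Bd.card : ℝ) ≤ (k : ℝ) * D.card := by
    calc δ * (Bd.card : ℝ) = ∑ _a ∈ Bd, δ := by rw [Finset.sum_const, nsmul_eq_mul, mul_comm]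
      _ ≤ ∑ a ∈ Bd, ((D.filter (fun z => a ∈ F z)).card : ℝ) := by
          apply Finset.sum_le_sum
          intro a ha
          exact (Finset.mem_filter.1 ha).2.le
      _ = ((∑ a ∈ Bd, (D.filter (fun z => a ∈ F z)).card : ℕ) : ℝ) := by push_cast; rfl
      _ = ((∑ z ∈ D, (Bd.filter (fun a => a ∈ F z)).card : ℕ) : ℝ) := by
          congr 1
          exact Finset.sum_card_bipartiteAbove_eq_sum_card_bipartiteBelow
            (fun (a : ℕ) (z : V) => a ∈ F z)
      _ ≤ ((∑ _z ∈ D, k : ℕ) : ℝ) := by
          apply Nat.cast_le.2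
          apply Finset.sum_le_sum
          intro z _
          refine le_trans (Finset.card_le_card ?_) (hF z)
          intro a ha
          exact (Finset.mem_filter.1 ha).2
      _ = (k : ℝ) * D.card := by
          rw [Finset.sum_const, smul_eq_mul]
          push_cast
          ring
  have h2 : Bd.card ≤ h := by
    have h3 : δ * (Bd.card : ℝ) ≤ δ * h := h1.trans hk
    have h4 : (Bd.card : ℝ) ≤ h := le_of_mul_le_mul_left h3 hδ
    exact_mod_cast h4
  have h3 : n ≤ (range (n + h) \ Bd).card := by
    have := Finset.le_card_sdiff Bd (range (n + h))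
    rw [Finset.card_range] at this
    omega
  obtain ⟨S, hS, hSc⟩ := Finset.exists_subset_card_eq h3
  let e := S.orderEmbOfFin hSc
  have he : ∀ a, e a ∈ S := fun a => Finset.orderEmbOfFin_mem S hSc a
  refine ⟨fun a => e a, e.injective, ?_, ?_⟩
  · intro a
    have := hS (he a)
    rw [Finset.mem_sdiff, Finset.mem_range] at this
    exact this.1
  · intro a
    have := hS (he a)
    rw [Finset.mem_sdiff] at this
    by_contra hcon
    push Not at hcon
    exact this.2 (Finset.mem_filter.2 ⟨this.1, hcon⟩)

end Pool.Agent.Work.MP_db9399_all
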